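import Pool.Agent.Q14.Bei

set_option autoImplicit false

/-!
All local v-numbers of the binomial edge ideal of a crown graph are four.
-/

namespace Pool.Agent.Results.MP_354fda_al.AllFour

open MvPolynomial Q14.Bei

/-- The crown graph: the vertices are `(false, i)` and `(true, i)`, and `(false, i)` is adjacent to
`(true, j)` for `i ≠ j`. (In the notation of the problem `(false, i) = 2 i - 1`, `(true, i) = 2 i`.) -/
def crown (n : ℕ) : SimpleGraph (Bool × Fin n) where
  Adj u v := u.1 ≠ v.1 ∧ u.2 ≠ v.2
  symm := ⟨fun _ _ h => ⟨h.1.symm, h.2.symm⟩⟩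
  loopless := ⟨fun _ h => h.1 rfl⟩

/-- The local v-number of `J` at `P` is `d`: `d` is the least degree of a homogeneous `f` with
`J : f = P`. -/
def IsLocalV {σ K : Type*} [Field K] (J P : Ideal (MvPolynomial σ K)) (d : ℕ) : Prop :=
  IsLeast {e : ℕ | ∃ f : MvPolynomial σ K, f.IsHomogeneous e ∧ Submodule.colon J {f} = P} d

variable {n : ℕ}

lemma adj_iff {u v : Bool × Fin n} : (crown n).Adj u v ↔ u.1 ≠ v.1 ∧ u.2 ≠ v.2 := Iff.rfl

/-- Names of the cut sets of the crown graph. -/
inductive Idx (n : ℕ)
  | empty
  | side (s : Bool)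
  | sideDel (s : Bool) (i : Fin n)
  | pair (i j : Fin n)

/-- The cut sets: `∅`, a side, a side without one vertex, all vertices except for two pairs. -/
def Idx.set : Idx n → Set (Bool × Fin n)
  | .empty => ∅
  | .side s => {v | v.1 = s}
  | .sideDel s i => {v | v.1 = s ∧ v.2 ≠ i}
  | .pair i j => {v | v.2 ≠ i ∧ v.2 ≠ j}

/-- In `pair i j` the indices are different. -/
def Idx.ok : Idx n → Prop
  | .pair i j => i ≠ j
  | _ => True

/-- Labels of the connected components. -/
def Idx.lab : Idx n → Bool × Fin n → Option (Bool × Fin n)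
  | .empty => fun _ => none
  | .side _ => fun v => some v
  | .sideDel s i => fun v => if v = (!s, i) then some v else none
  | .pair i _ => fun v => if xor v.1 (decide (v.2 = i)) then none else some (false, i)

lemma exists_ne (hn : 4 ≤ n) (S : Finset (Fin n)) (hS : S.card ≤ 3) : ∃ l, l ∉ S := by
  by_contra h
  push Not at h
  have h1 := Finset.card_le_card (show Finset.univ ⊆ S from fun x _ => h x)
  rw [Finset.card_univ, Fintype.card_fin] at h1
  omega

lemma ne_one (hn : 4 ≤ n) (i : Fin n) : ∃ l, l ≠ i := by
  obtain ⟨l, hl⟩ := exists_ne hn {i} (by simp)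
  exact ⟨l, by simpa using hl⟩

lemma ne_two (hn : 4 ≤ n) (i j : Fin n) : ∃ l, l ≠ i ∧ l ≠ j := by
  obtain ⟨l, hl⟩ := exists_ne hn {i, j} (Finset.card_le_two.trans (by norm_num))
  exact ⟨l, by simpa using hl⟩

lemma ne_three (hn : 4 ≤ n) (i j k : Fin n) : ∃ l, l ≠ i ∧ l ≠ j ∧ l ≠ k := by
  obtain ⟨l, hl⟩ := exists_ne hn {i, j, k} Finset.card_le_three
  exact ⟨l, by simpa using hl⟩

lemma bool_ne {a b c : Bool} (h1 : a ≠ c) (h2 : b ≠ c) : a = b := by
  revert a b c; decide

/-- Two vertices of the same label, not in the cut set. -/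
lemma lab_pair {i j : Fin n} (hij : i ≠ j) {u v : Bool × Fin n} (hu : u.2 = i ∨ u.2 = j)
    (hv : v.2 = i ∨ v.2 = j) (h : (Idx.pair i j).lab u = (Idx.pair i j).lab v) (huv : u ≠ v) :
    (crown n).Adj u v := by
  obtain ⟨a, k⟩ := u
  obtain ⟨b, l⟩ := v
  simp only [Idx.lab] at h
  rw [adj_iff]
  simp only at hu hv ⊢
  have hji : ¬ j = i := fun h => hij h.symm
  rcases hu with rfl | rfl <;> rcases hv with rfl | rfl <;> cases a <;> cases b <;>
    simp_all

lemma adj_lab (t : Idx n) (ht : t.ok) {u v : Bool × Fin n} (h : (crown n).Adj u v)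
    (hu : u ∉ t.set) (hv : v ∉ t.set) : t.lab u = t.lab v := by
  rw [adj_iff] at h
  obtain ⟨a, k⟩ := u
  obtain ⟨b, l⟩ := v
  simp only at h
  cases t with
  | empty => rfl
  | side s =>
    exfalso
    simp only [Idx.set, Set.mem_ofPred_eq] at hu hv
    exact h.1 (bool_ne hu hv)
  | sideDel s i =>
    simp only [Idx.set, Set.mem_ofPred_eq, not_and, not_not] at hu hv
    simp only [Idx.lab]
    have h1 : ¬ (a, k) = (!s, i) := by
      rintro h1
      rw [Prod.mk.injEq] at h1
      have h2 : b = s := by
        have := h.1
        rw [h1.1] at this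
        revert this; cases b <;> cases s <;> simp
      exact h.2 (h1.2.trans (hv h2).symm)
    have h1' : ¬ (b, l) = (!s, i) := by
      rintro h1
      rw [Prod.mk.injEq] at h1
      have h2 : a = s := by
        have := h.1
        rw [h1.1] at this
        revert this; cases a <;> cases s <;> simp
      exact h.2 ((hu h2).trans h1.2.symm)
    rw [if_neg h1, if_neg h1']
  | pair i j =>
    simp only [Idx.set, Set.mem_ofPred_eq, not_and, not_not] at hu hv
    simp only [Idx.lab, Idx.ok] at ht ⊢
    have hji : ¬ j = i := fun h => ht h.symm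
    have hk : k = i ∨ k = j := by
      by_cases h1 : k = i
      · exact Or.inl h1
      · exact Or.inr (hu h1)
    have hl : l = i ∨ l = j := by
      by_cases h1 : l = i
      · exact Or.inl h1
      · exact Or.inr (hv h1)
    rcases hk with rfl | rfl <;> rcases hl with rfl | rfl <;> cases a <;> cases b <;> simp_all

lemma reach_of_adj {T : Set (Bool × Fin n)} {u v : Bool × Fin n} (hu : u ∈ Tᶜ) (hv : v ∈ Tᶜ)
    (h : (crown n).Adj u v) : ((crown n).induce Tᶜ).Reachable ⟨u, hu⟩ ⟨v, hv⟩ :=
  SimpleGraph.Adj.reachable (by exact h)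

lemma not_eq_self (s : Bool) : (!s) ≠ s := by cases s <;> decide

lemma eq_not {a s : Bool} (h : a ≠ s) : a = !s := by cases a <;> cases s <;> simp_all

/-- The labels describe the connected components. -/
lemma reach_iff (hn : 4 ≤ n) (t : Idx n) (ht : t.ok) (u v : Bool × Fin n) (hu : u ∈ t.setᶜ)
    (hv : v ∈ t.setᶜ) :
    ((crown n).induce t.setᶜ).Reachable ⟨u, hu⟩ ⟨v, hv⟩ ↔ t.lab u = t.lab v := by
  constructor
  · have key : ∀ a b : ↥(t.setᶜ), ((crown n).induce t.setᶜ).Reachable a b →
        t.lab a.1 = t.lab b.1 := by
      rintro a b ⟨w⟩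
      induction w with
      | nil => rfl
      | @cons a b c h _ ih => exact (adj_lab t ht h a.2 b.2).trans ih
    exact key _ _
  · intro h
    by_cases huv : u = v
    · subst huv; exact SimpleGraph.Reachable.refl _
    cases t with
    | empty =>
      have key : ∀ w : Bool × Fin n, ∀ hw : w ∈ (Idx.empty (n := n)).setᶜ,
          ((crown n).induce (Idx.empty (n := n)).setᶜ).Reachable ⟨w, hw⟩ ⟨u, hu⟩ := by
        rintro ⟨b, k⟩ hw
        obtain ⟨a, l⟩ := u
        have hmem : ∀ x : Bool × Fin n, x ∈ (Idx.empty (n := n)).setᶜ := fun x => by simp [Idx.set]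
        obtain ⟨m, hm1, hm2⟩ := ne_two hn k l
        by_cases hab : a = b
        · subst hab
          exact (reach_of_adj (v := (!a, m)) hw (hmem _)
            ⟨(not_eq_self a).symm, fun h => hm1 h.symm⟩).trans
            (reach_of_adj _ _ ⟨not_eq_self a, hm2⟩)
        · by_cases hkl : k = l
          · subst hkl
            obtain ⟨m', hm1', hm2', -⟩ := ne_three hn k m m
            exact ((reach_of_adj (v := (a, m)) hw (hmem _)
              ⟨fun h => hab h.symm, fun h => hm1 h.symm⟩).trans
              (reach_of_adj (v := (b, m')) _ (hmem _) ⟨hab, fun h => hm2' h.symm⟩)).trans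
              (reach_of_adj _ _ ⟨fun h => hab h.symm, hm1'⟩)
          · exact reach_of_adj _ _ ⟨fun h => hab h.symm, hkl⟩
      exact (key v hv).symm
    | side s =>
      exact absurd (Option.some_injective _ h) huv
    | sideDel s i =>
      have hc : (s, i) ∈ (Idx.sideDel s i).setᶜ := by simp [Idx.set]
      have key : ∀ w : Bool × Fin n, ∀ hw : w ∈ (Idx.sideDel s i).setᶜ, w ≠ (!s, i) →
          ((crown n).induce (Idx.sideDel s i).setᶜ).Reachable ⟨w, hw⟩ ⟨(s, i), hc⟩ := by
        rintro ⟨b, k⟩ hw hne
        simp only [Idx.set, Set.mem_compl_iff, Set.mem_ofPred_eq, not_and, not_not] at hw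
        by_cases hb : b = s
        · obtain rfl := hw hb
          subst hb
          exact SimpleGraph.Reachable.refl _
        · refine reach_of_adj _ _ ⟨hb, ?_⟩
          rintro (rfl : k = i)
          exact hne (by rw [eq_not hb])
      simp only [Idx.lab] at h
      by_cases h1 : u = (!s, i)
      · rw [if_pos h1] at h
        by_cases h2 : v = (!s, i)
        · exact absurd (h1.trans h2.symm) huv
        · rw [if_neg h2] at h; exact absurd h (by simp)
      · by_cases h2 : v = (!s, i)
        · rw [if_neg h1, if_pos h2] at h; exact absurd h (by simp)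
        · exact (key u hu h1).trans (key v hv h2).symm
    | pair i j =>
      refine reach_of_adj _ _ (lab_pair ht ?_ ?_ h huv)
      · simp only [Idx.set, Set.mem_compl_iff, Set.mem_ofPred_eq, not_and, not_not] at hu
        by_cases h1 : u.2 = i
        · exact Or.inl h1
        · exact Or.inr (hu h1)
      · simp only [Idx.set, Set.mem_compl_iff, Set.mem_ofPred_eq, not_and, not_not] at hv
        by_cases h1 : v.2 = i
        · exact Or.inl h1
        · exact Or.inr (hv h1)

variable {K : Type*} [Field K]

lemma primeT_eq (K : Type*) [Field K] (hn : 4 ≤ n) (t : Idx n) (ht : t.ok) :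
    primeT K (crown n) t.set = PP K t.set t.lab :=
  primeT_eq_PP _ _ _ (reach_iff hn t ht)

lemma be_le (K : Type*) [Field K] (t : Idx n) (ht : t.ok) :
    beIdeal K (crown n) ≤ PP K t.set t.lab :=
  beIdeal_le_PP _ fun _ _ h hu hv => adj_lab t ht h hu hv

/-- Different cut sets give incomparable primes. -/
lemma sep (hn : 4 ≤ n) (t t' : Idx n) (ht : t.ok) (ht' : t'.ok) (hne : t.set ≠ t'.set) :
    ¬ PP K t.set t.lab ≤ PP K t'.set t'.lab := by
  intro hle
  -- `t.set ⊆ t'.set`
  have hsub : ∀ v, v ∈ t.set → v ∈ t'.set := by
    intro v hv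
    by_contra hv'
    exact X_notMem_PP t'.lab false hv' (hle (X_mem_PP t.lab false hv))
  have hlab : ∀ u v, u ∉ t'.set → v ∉ t'.set → t.lab u = t.lab v → t'.lab u = t'.lab v := by
    intro u v hu hv h
    by_contra hcon
    exact minor_notMem_PP t'.lab hu hv hcon (hle (minor_mem_PP_of_eq t.lab fun _ _ => h))
  have zero : Fin n := ⟨0, by omega⟩
  cases t with
  | empty =>
    cases t' with
    | empty => exact hne rfl
    | side s =>
      obtain ⟨l, hl⟩ := ne_one hn zero
      have := hlab (!s, zero) (!s, l) (not_eq_self s) (not_eq_self s) rfl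
      simp only [Idx.lab, Option.some.injEq, Prod.mk.injEq, true_and] at this
      exact hl this.symm
    | sideDel s i =>
      obtain ⟨l, hl⟩ := ne_one hn i
      have := hlab (!s, i) (!s, l) (fun h => not_eq_self s h.1) (fun h => not_eq_self s h.1) rfl
      simp [Idx.lab, hl] at this
    | pair i j =>
      have := hlab (false, i) (true, i) (fun h => h.1 rfl) (fun h => h.1 rfl) rfl
      simp [Idx.lab] at this
  | side s =>
    cases t' with
    | empty => exact hsub (s, zero) rfl
    | side s' =>
      have : s = s' := hsub (s, zero) rfl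
      exact hne (by rw [this])
    | sideDel s' i => exact (hsub (s, i) rfl).2 rfl
    | pair i j => exact (hsub (s, i) rfl).1 rfl
  | sideDel s i =>
    cases t' with
    | empty =>
      obtain ⟨l, hl⟩ := ne_one hn i
      exact hsub (s, l) ⟨rfl, hl⟩
    | side s' =>
      obtain ⟨l, hl⟩ := ne_one hn i
      have hs : s = s' := hsub (s, l) ⟨rfl, hl⟩
      subst hs
      obtain ⟨m, hm1, hm2⟩ := ne_two hn i l
      have := hlab (!s, l) (!s, m) (not_eq_self s) (not_eq_self s) (by simp [Idx.lab, hl, hm1])
      simp only [Idx.lab, Option.some.injEq, Prod.mk.injEq, true_and] at this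
      exact hm2 this.symm
    | sideDel s' i' =>
      obtain ⟨l, hl⟩ := ne_one hn i
      have hs : s = s' := (hsub (s, l) ⟨rfl, hl⟩).1
      subst hs
      by_cases hi : i' = i
      · exact hne (by rw [hi])
      · exact (hsub (s, i') ⟨rfl, hi⟩).2 rfl
    | pair i' j' =>
      by_cases hi : i' = i
      · refine (hsub (s, j') ⟨rfl, ?_⟩).2 rfl
        rintro (h : j' = i)
        exact ht' (hi.trans h.symm)
      · exact (hsub (s, i') ⟨rfl, hi⟩).1 rfl
  | pair i j =>
    obtain ⟨l, hl1, hl2⟩ := ne_two hn i j
    cases t' with
    | empty => exact hsub (false, l) ⟨hl1, hl2⟩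
    | side s' => exact not_eq_self s' (hsub (!s', l) ⟨hl1, hl2⟩)
    | sideDel s' i' => exact not_eq_self s' (hsub (!s', l) ⟨hl1, hl2⟩).1
    | pair i' j' =>
      apply hne
      have h1 : i' = i ∨ i' = j := by
        by_contra hcon
        push Not at hcon
        exact (hsub (false, i') hcon).1 rfl
      have h2 : j' = i ∨ j' = j := by
        by_contra hcon
        push Not at hcon
        exact (hsub (false, j') hcon).2 rfl
      have h3 : i' ≠ j' := ht'
      ext v
      simp only [Idx.set, Set.mem_ofPred_eq]
      rcases h1 with rfl | rfl <;> rcases h2 with rfl | rfl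
      · exact absurd rfl h3
      · rfl
      · exact and_comm
      · exact absurd rfl h3

/-- A component with exactly one column on the side `s`. -/
lemma low_mixed (hn : 4 ≤ n) (t0 : Idx n) {f : MvPolynomial ((Bool × Fin n) × Bool) K}
    (hf : ∀ t : Idx n, t.ok → t.set ≠ t0.set → f ∈ PP K t.set t.lab)
    (δ : Bool × Fin n → ℕ) (s : Bool) (i : Fin n) (hi : δ (s, i) ≠ 0)
    (huniq : ∀ v, v.1 = s → δ v ≠ 0 → v = (s, i))
    (hcard : (Finset.univ.filter fun v => δ v ≠ 0).card ≤ 3) :
    cmp δ f ∈ beIdeal K (crown n) := by
  obtain ⟨l0, hl0⟩ := ne_one hn i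
  -- the first candidate
  have h1 : (Idx.sideDel s i).set ≠ t0.set → cmp δ f ∈ beIdeal K (crown n) := by
    intro hne
    refine good δ (hf (Idx.sideDel s i) trivial hne) ?_ ?_
    · rintro v ⟨hv1, hv2⟩
      by_contra hv
      exact hv2 (by rw [huniq v hv1 hv])
    · intro u v huv hu hv hc
      have key : ∀ w, δ w ≠ 0 → w ≠ (!s, i) → w = (s, i) ∨ (w.1 = !s ∧ w.2 ≠ i) := by
        intro w hw hwn
        by_cases h : w.1 = s
        · exact Or.inl (huniq w h hw)
        · right
          refine ⟨eq_not h, fun h2 => hwn ?_⟩
          rw [← eq_not h, ← h2]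
      simp only [Idx.lab] at hc
      by_cases hu1 : u = (!s, i)
      · by_cases hv1 : v = (!s, i)
        · exact absurd (hu1.trans hv1.symm) huv
        · rw [if_pos hu1, if_neg hv1] at hc; exact absurd hc (by simp)
      · by_cases hv1 : v = (!s, i)
        · rw [if_neg hu1, if_pos hv1] at hc; exact absurd hc (by simp)
        · rcases key u hu hu1 with rfl | ⟨hu2, hu3⟩
          · rcases key v hv hv1 with rfl | ⟨hv2, hv3⟩
            · exact absurd rfl huv
            · left
              exact ⟨by rw [hv2]; exact (not_eq_self s).symm, fun h => hv3 h.symm⟩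
          · rcases key v hv hv1 with rfl | ⟨hv2, hv3⟩
            · left
              exact ⟨by rw [hu2]; exact not_eq_self s, hu3⟩
            · right
              refine ⟨(s, i), ?_, ?_, hi, ?_, ?_⟩
              · rintro rfl; exact hu3 rfl
              · rintro rfl; exact hv3 rfl
              · exact ⟨by rw [hu2]; exact not_eq_self s, hu3⟩
              · exact ⟨by rw [hv2]; exact (not_eq_self s).symm, fun h => hv3 h.symm⟩
  by_cases hne : (Idx.sideDel s i).set = t0.set
  · by_cases hz : δ (!s, i) = 0
    · -- the empty cut set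
      refine good δ (hf Idx.empty trivial ?_) (fun v hv => absurd hv (by simp [Idx.set])) ?_
      · rw [← hne]
        intro h
        have : (s, l0) ∈ (Idx.sideDel s i).set := ⟨rfl, hl0⟩
        rw [← h] at this
        exact this
      · intro u v huv hu hv _
        have key : ∀ w, δ w ≠ 0 → w = (s, i) ∨ (w.1 = !s ∧ w.2 ≠ i) := by
          intro w hw
          by_cases h : w.1 = s
          · exact Or.inl (huniq w h hw)
          · right
            refine ⟨eq_not h, fun h2 => hw ?_⟩
            have : w = (!s, i) := by rw [← eq_not h, ← h2]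
            rw [this]; exact hz
        rcases key u hu with rfl | ⟨hu2, hu3⟩
        · rcases key v hv with rfl | ⟨hv2, hv3⟩
          · exact absurd rfl huv
          · left
            exact ⟨by rw [hv2]; exact (not_eq_self s).symm, fun h => hv3 h.symm⟩
        · rcases key v hv with rfl | ⟨hv2, hv3⟩
          · left
            exact ⟨by rw [hu2]; exact not_eq_self s, hu3⟩
          · right
            refine ⟨(s, i), ?_, ?_, hi, ?_, ?_⟩
            · rintro rfl; exact hu3 rfl
            · rintro rfl; exact hv3 rfl
            · exact ⟨by rw [hu2]; exact not_eq_self s, hu3⟩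
            · exact ⟨by rw [hv2]; exact (not_eq_self s).symm, fun h => hv3 h.symm⟩
    · -- a pair cut set
      obtain ⟨k, hki, hk⟩ : ∃ k, k ≠ i ∧ ∀ v, δ v ≠ 0 → v.2 = i ∨ v.2 = k := by
        by_cases hex : ∃ v, δ v ≠ 0 ∧ v ≠ (s, i) ∧ v ≠ (!s, i)
        · obtain ⟨v, hv, hv1, hv2⟩ := hex
          have hvs : v.1 ≠ s := fun h => hv1 (huniq v h hv)
          have hvi : v.2 ≠ i := by
            intro h
            apply hv2
            rw [← eq_not hvs, ← h]
          refine ⟨v.2, hvi, fun w hw => ?_⟩
          by_contra hcon
          push Not at hcon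
          have hsub : ({(s, i), (!s, i), v, w} : Finset (Bool × Fin n)) ⊆
              Finset.univ.filter fun v => δ v ≠ 0 := by
            intro x hx
            simp only [Finset.mem_insert, Finset.mem_singleton] at hx
            rw [Finset.mem_filter]
            refine ⟨Finset.mem_univ _, ?_⟩
            rcases hx with rfl | rfl | rfl | rfl
            · exact hi
            · exact hz
            · exact hv
            · exact hw
          have hc := Finset.card_le_card hsub
          rw [Finset.card_insert_of_notMem, Finset.card_insert_of_notMem,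
            Finset.card_insert_of_notMem, Finset.card_singleton] at hc
          · omega
          · rw [Finset.mem_singleton]
            rintro rfl
            exact hcon.2 rfl
          · simp only [Finset.mem_insert, Finset.mem_singleton, not_or]
            refine ⟨fun h => hv2 h.symm, ?_⟩
            rintro rfl
            exact hcon.1 rfl
          · simp only [Finset.mem_insert, Finset.mem_singleton, not_or]
            refine ⟨fun h => ?_, fun h => hv1 h.symm, ?_⟩
            · rw [Prod.mk.injEq] at h
              exact not_eq_self s h.1.symm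
            · rintro rfl
              exact hcon.1 rfl
        · push Not at hex
          refine ⟨l0, hl0, fun w hw => ?_⟩
          by_cases h : w = (s, i)
          · left; rw [h]
          · left; rw [hex w hw h]
      refine good δ (hf (Idx.pair i k) (fun h => hki h.symm) ?_) ?_ ?_
      · rw [← hne]
        obtain ⟨l, hl1, hl2⟩ := ne_two hn i k
        intro h
        have : (!s, l) ∈ (Idx.pair i k).set := ⟨hl1, hl2⟩
        rw [h] at this
        exact not_eq_self s this.1
      · rintro v ⟨hv1, hv2⟩
        by_contra hv
        rcases hk v hv with h | h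
        · exact hv1 h
        · exact hv2 h
      · intro u v huv hu hv hc
        exact Or.inl (lab_pair (fun h => hki h.symm) (hk u hu) (hk v hv) hc huv)
  · exact h1 hne

/-- A component with all columns on one side. -/
lemma low_side (hn : 4 ≤ n) (t0 : Idx n) {f : MvPolynomial ((Bool × Fin n) × Bool) K}
    (hf : ∀ t : Idx n, t.ok → t.set ≠ t0.set → f ∈ PP K t.set t.lab)
    (δ : Bool × Fin n → ℕ) (s : Bool) (hs : ∀ v, v.1 = s → δ v = 0) (hsum : ∑ v, δ v ≤ 3) :
    cmp δ f ∈ beIdeal K (crown n) := by
  classical
  have zero : Fin n := ⟨0, by omega⟩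
  have hside : ∀ v, δ v ≠ 0 → v.1 = !s := fun v hv => eq_not fun h => hv (hs v h)
  by_cases h0 : (Idx.side s).set = t0.set
  · set S : Finset (Bool × Fin n) := Finset.univ.filter fun v => δ v ≠ 0 with hS
    have hmemS : ∀ v, v ∈ S ↔ δ v ≠ 0 := fun v => by simp [hS]
    have hS3 : S.card ≤ 3 := by
      refine le_trans ?_ hsum
      rw [Finset.card_eq_sum_ones]
      refine (Finset.sum_le_sum fun v hv => Nat.one_le_iff_ne_zero.mpr ((hmemS v).mp hv)).trans ?_
      exact Finset.sum_le_sum_of_subset (Finset.subset_univ _)
    by_cases hS1 : S.card ≤ 1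
    · refine good δ (hf Idx.empty trivial ?_) (fun v hv => absurd hv (by simp [Idx.set])) ?_
      · rw [← h0]
        intro h
        have : (s, zero) ∈ (Idx.side s).set := rfl
        rw [← h] at this
        exact this
      · intro u v huv hu hv _
        exact absurd (Finset.card_le_one.mp hS1 u ((hmemS u).mpr hu) v ((hmemS v).mpr hv)) huv
    · by_cases hS2 : S.card = 2
      · obtain ⟨p, q, hpq, hSpq⟩ := Finset.card_eq_two.mp hS2
        have hp : δ p ≠ 0 := (hmemS p).mp (by rw [hSpq]; simp)
        have hq : δ q ≠ 0 := (hmemS q).mp (by rw [hSpq]; simp)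
        have hpq2 : p.2 ≠ q.2 := fun h => hpq (Prod.ext ((hside p hp).trans (hside q hq).symm) h)
        have hk : ∀ v, δ v ≠ 0 → v.2 = p.2 ∨ v.2 = q.2 := by
          intro v hv
          have := (hmemS v).mpr hv
          rw [hSpq, Finset.mem_insert, Finset.mem_singleton] at this
          rcases this with rfl | rfl
          · exact Or.inl rfl
          · exact Or.inr rfl
        refine good δ (hf (Idx.pair p.2 q.2) hpq2 ?_) ?_ ?_
        · rw [← h0]
          obtain ⟨l, hl1, hl2⟩ := ne_two hn p.2 q.2
          intro h
          have : (!s, l) ∈ (Idx.pair p.2 q.2).set := ⟨hl1, hl2⟩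
          rw [h] at this
          exact not_eq_self s this
        · rintro v ⟨hv1, hv2⟩
          by_contra hv
          rcases hk v hv with h | h
          · exact hv1 h
          · exact hv2 h
        · intro u v huv hu hv hc
          exact Or.inl (lab_pair hpq2 (hk u hu) (hk v hv) hc huv)
      · -- three columns
        have hS3' : S.card = 3 := by omega
        have hle1 : ∀ v, δ v ≤ 1 := by
          intro v
          by_contra hcon
          push Not at hcon
          have hv : v ∈ S := (hmemS v).mpr (by omega)
          have h1 : ∑ w ∈ S.erase v, 1 ≤ ∑ w ∈ S.erase v, δ w :=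
            Finset.sum_le_sum fun w hw =>
              Nat.one_le_iff_ne_zero.mpr ((hmemS w).mp (Finset.mem_of_mem_erase hw))
          rw [← Finset.card_eq_sum_ones, Finset.card_erase_of_mem hv] at h1
          have h2 := Finset.add_sum_erase S δ hv
          have h3 : ∑ w ∈ S, δ w ≤ ∑ w, δ w := Finset.sum_le_sum_of_subset (Finset.subset_univ _)
          omega
        have key : ∀ m : ((Bool × Fin n) × Bool) →₀ ℕ, colDeg m = δ → ∀ p q r : Bool × Fin n,
            S = {p, q, r} → p ≠ q → p ≠ r → q ≠ r → m (p, false) = m (q, false) →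
            coeff m (cmp δ f) = 0 := by
          intro m hm p q r hSe hpq hpr hqr heq
          have hp : δ p ≠ 0 := (hmemS p).mp (by rw [hSe]; simp)
          have hq : δ q ≠ 0 := (hmemS q).mp (by rw [hSe]; simp)
          have hr : δ r ≠ 0 := (hmemS r).mp (by rw [hSe]; simp)
          have hrs : r = (!s, r.2) := Prod.ext (hside r hr) rfl
          have hne : (Idx.sideDel s r.2).set ≠ t0.set := by
            rw [← h0]
            intro h
            have : (s, r.2) ∈ (Idx.side s).set := rfl
            rw [← h] at this
            exact this.2 rfl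
          have h1 := cmp_mem_PP δ (hf (Idx.sideDel s r.2) trivial hne)
          rw [mem_PP, kill_eq_self] at h1
          · have h2 := coeff_ph (Idx.sideDel s r.2).lab (cmp δ f) (ka (Idx.sideDel s r.2).lab m)
            rw [h1, coeff_zero] at h2
            rw [Finset.sum_eq_single m] at h2
            · rw [if_pos rfl] at h2
              exact h2.symm
            · intro m' hm' hne'
              rw [if_neg]
              intro hk
              apply hne'
              rw [ka_eq_iff] at hk
              have hm'δ : colDeg m' = δ := by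
                funext v
                rw [← hm]
                exact hk.1 v
              have hz : ∀ v, v ∉ S → m' (v, false) = 0 ∧ m (v, false) = 0 := by
                intro v hv
                have h3 : δ v = 0 := by
                  by_contra h4
                  exact hv ((hmemS v).mpr h4)
                have h5 := congrFun hm v
                have h6 := congrFun hm'δ v
                unfold colDeg at h5 h6
                omega
              have hsm : ∀ (l : Option (Bool × Fin n)) (x : ((Bool × Fin n) × Bool) →₀ ℕ),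
                  (∀ v, v ∉ S → x (v, false) = 0) →
                  (∑ v, if (Idx.sideDel s r.2).lab v = l then x (v, false) else 0) =
                  ∑ v ∈ S, if (Idx.sideDel s r.2).lab v = l then x (v, false) else 0 := by
                intro l x hx
                symm
                refine Finset.sum_subset (Finset.subset_univ _) fun v _ hv => ?_
                rw [hx v hv, ite_self]
              have hlr : (Idx.sideDel s r.2).lab r = some r := by
                simp only [Idx.lab]
                rw [if_pos hrs]
              have hlp : (Idx.sideDel s r.2).lab p = none := by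
                simp only [Idx.lab]
                rw [if_neg (fun h => hpr (h.trans hrs.symm))]
              have hlq : (Idx.sideDel s r.2).lab q = none := by
                simp only [Idx.lab]
                rw [if_neg (fun h => hqr (h.trans hrs.symm))]
              have e1 := hk.2 (some r)
              rw [hsm _ m' (fun v hv => (hz v hv).1), hsm _ m (fun v hv => (hz v hv).2), hSe,
                Finset.sum_insert (by simp [hpq, hpr]), Finset.sum_insert (by simp [hqr]),
                Finset.sum_singleton, Finset.sum_insert (by simp [hpq, hpr]),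
                Finset.sum_insert (by simp [hqr]), Finset.sum_singleton, hlp, hlq, hlr] at e1
              have e2 := hk.2 none
              rw [hsm _ m' (fun v hv => (hz v hv).1), hsm _ m (fun v hv => (hz v hv).2), hSe,
                Finset.sum_insert (by simp [hpq, hpr]), Finset.sum_insert (by simp [hqr]),
                Finset.sum_singleton, Finset.sum_insert (by simp [hpq, hpr]),
                Finset.sum_insert (by simp [hqr]), Finset.sum_singleton, hlp, hlq, hlr] at e2
              simp only [reduceCtorEq, if_false, if_true, zero_add, add_zero] at e1 e2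
              have a1 := congrFun hm p
              have a2 := congrFun hm q
              have a3 := congrFun hm r
              have b1 := congrFun hm'δ p
              have b2 := congrFun hm'δ q
              have b3 := congrFun hm'δ r
              have c1 := hle1 p
              have c2 := hle1 q
              have c3 := hle1 r
              unfold colDeg at a1 a2 a3 b1 b2 b3
              have hall : ∀ v, m' (v, false) = m (v, false) := by
                intro v
                by_cases hv : v ∈ S
                · rw [hSe, Finset.mem_insert, Finset.mem_insert, Finset.mem_singleton] at hv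
                  rcases hv with rfl | rfl | rfl
                  · omega
                  · omega
                  · exact e1
                · rw [(hz v hv).1, (hz v hv).2]
              ext ⟨v, b⟩
              cases b
              · exact hall v
              · have h7 := hk.1 v
                have h8 := hall v
                omega
            · intro h3
              rw [if_pos rfl]
              exact notMem_support_iff.mp h3
          · intro m' hm' v hv
            rw [mem_support_iff, coeff_cmp] at hm'
            have hm'δ : colDeg m' = δ := by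
              by_contra h4
              rw [if_neg h4] at hm'
              exact hm' rfl
            have h5 := congrFun hm'δ v
            rw [hs v hv.1] at h5
            unfold colDeg at h5
            omega
        have hzero : cmp δ f = 0 := by
          ext m
          rw [coeff_zero]
          by_cases hm : colDeg m = δ
          · obtain ⟨p, q, r, hpq, hpr, hqr, hSe⟩ := Finset.card_eq_three.mp hS3'
            have a1 := congrFun hm p
            have a2 := congrFun hm q
            have a3 := congrFun hm r
            have c1 := hle1 p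
            have c2 := hle1 q
            have c3 := hle1 r
            unfold colDeg at a1 a2 a3
            by_cases h1 : m (p, false) = m (q, false)
            · exact key m hm p q r hSe hpq hpr hqr h1
            · by_cases h2 : m (p, false) = m (r, false)
              · refine key m hm p r q ?_ hpr hpq (fun h => hqr h.symm) h2
                rw [hSe]; ext x; simp only [Finset.mem_insert, Finset.mem_singleton]; tauto
              · refine key m hm q r p ?_ hqr (fun h => hpq h.symm) (fun h => hpr h.symm) (by omega)
                rw [hSe]; ext x; simp only [Finset.mem_insert, Finset.mem_singleton]; tauto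
          · rw [coeff_cmp, if_neg hm]
        rw [hzero]
        exact Ideal.zero_mem _
  · refine good δ (hf (Idx.side s) trivial h0) (fun v hv => hs v hv) ?_
    intro u v huv _ _ hc
    exact absurd (Option.some_injective _ hc) huv

/-- Components of degree at most three. -/
lemma low (hn : 4 ≤ n) (t0 : Idx n) {f : MvPolynomial ((Bool × Fin n) × Bool) K}
    (hf : ∀ t : Idx n, t.ok → t.set ≠ t0.set → f ∈ PP K t.set t.lab)
    (δ : Bool × Fin n → ℕ) (hsum : ∑ v, δ v ≤ 3) : cmp δ f ∈ beIdeal K (crown n) := by
  classical
  by_cases h1 : ∀ v, v.1 = false → δ v = 0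
  · exact low_side hn t0 hf δ false h1 hsum
  by_cases h2 : ∀ v, v.1 = true → δ v = 0
  · exact low_side hn t0 hf δ true h2 hsum
  push Not at h1 h2
  obtain ⟨⟨a, i⟩, rfl, hi⟩ := h1
  obtain ⟨⟨b, j⟩, rfl, hj⟩ := h2
  set S : Finset (Bool × Fin n) := Finset.univ.filter fun v => δ v ≠ 0 with hS
  have hmemS : ∀ v, v ∈ S ↔ δ v ≠ 0 := fun v => by simp [hS]
  have hS3 : S.card ≤ 3 := by
    refine le_trans ?_ hsum
    rw [Finset.card_eq_sum_ones]
    refine (Finset.sum_le_sum fun v hv => Nat.one_le_iff_ne_zero.mpr ((hmemS v).mp hv)).trans ?_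
    exact Finset.sum_le_sum_of_subset (Finset.subset_univ _)
  have hsplit := Finset.card_filter_add_card_filter_not (s := S) (fun v => v.1 = false)
  by_cases hA : (S.filter fun v => v.1 = false).card ≤ 1
  · refine low_mixed hn t0 hf δ false i hi ?_ hS3
    intro v hv1 hv2
    exact Finset.card_le_one.mp hA v (Finset.mem_filter.mpr ⟨(hmemS v).mpr hv2, hv1⟩) (false, i)
      (Finset.mem_filter.mpr ⟨(hmemS _).mpr hi, rfl⟩)
  · have hB : (S.filter fun v => ¬ v.1 = false).card ≤ 1 := by omega
    refine low_mixed hn t0 hf δ true j hj ?_ hS3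
    intro v hv1 hv2
    exact Finset.card_le_one.mp hB v (Finset.mem_filter.mpr ⟨(hmemS v).mpr hv2, by rw [hv1]; decide⟩)
      (true, j) (Finset.mem_filter.mpr ⟨(hmemS _).mpr hj, by simp⟩)

/-! ### Upper bounds -/

lemma minor_self (u : Bool × Fin n) : minor K u u = 0 := by
  unfold minor; ring

lemma minor_hom (u v : Bool × Fin n) : (minor K u v).IsHomogeneous 2 := by
  unfold minor
  exact ((isHomogeneous_X _ _).mul (isHomogeneous_X _ _)).sub
    ((isHomogeneous_X _ _).mul (isHomogeneous_X _ _))

lemma colon_eq (hn : 4 ≤ n) (t : Idx n) (ht : t.ok) (f : MvPolynomial ((Bool × Fin n) × Bool) K)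
    (hf : f ∉ PP K t.set t.lab) (h1 : ∀ v ∈ t.set, ∀ b, X (v, b) * f ∈ beIdeal K (crown n))
    (h2 : ∀ u v, u ∉ t.set → v ∉ t.set → u ≠ v → t.lab u = t.lab v →
      minor K u v * f ∈ beIdeal K (crown n)) :
    Submodule.colon (beIdeal K (crown n)) {f} = primeT K (crown n) t.set := by
  apply le_antisymm
  · intro g hg
    rw [Submodule.mem_colon_singleton, smul_eq_mul] at hg
    rw [primeT_eq K hn t ht]
    have := PP_isPrime (K := K) t.set t.lab
    rcases this.mem_or_mem (be_le K t ht hg) with h | h
    · exact h
    · exact absurd h hf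
  · unfold primeT
    rw [Ideal.span_le]
    rintro _ (⟨v, hv, rfl | rfl⟩ | ⟨u, v, hu, hv, hr, rfl⟩)
    · rw [SetLike.mem_coe, Submodule.mem_colon_singleton, smul_eq_mul]
      exact h1 v hv _
    · rw [SetLike.mem_coe, Submodule.mem_colon_singleton, smul_eq_mul]
      exact h1 v hv _
    · rw [SetLike.mem_coe, Submodule.mem_colon_singleton, smul_eq_mul]
      by_cases huv : u = v
      · subst huv
        rw [minor_self, zero_mul]
        exact Ideal.zero_mem _
      · exact h2 u v hu hv huv ((reach_iff hn t ht u v hu hv).mp hr)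

lemma path1 {s : Bool} {i j k : Fin n} (b : Bool) (h1 : i ≠ k) (h2 : k ≠ j) :
    X ((s, k), b) * minor K (!s, i) (!s, j) ∈ beIdeal K (crown n) :=
  path_one b ⟨not_eq_self s, h1⟩ ⟨(not_eq_self s).symm, h2⟩

lemma path1' {s : Bool} {i j k : Fin n} (b : Bool) (h1 : i ≠ k) (h2 : k ≠ j) :
    X ((!s, k), b) * minor K (s, i) (s, j) ∈ beIdeal K (crown n) :=
  path_one b ⟨(not_eq_self s).symm, h1⟩ ⟨not_eq_self s, h2⟩

lemma pstep {u a v : Bool × Fin n} (b : Bool) (h1 : u.1 ≠ a.1) (h2 : u.2 ≠ a.2)
    {q : MvPolynomial ((Bool × Fin n) × Bool) K} (hq : q * minor K a v ∈ beIdeal K (crown n)) :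
    X (a, b) * q * minor K u v ∈ beIdeal K (crown n) :=
  path_step b (show (crown n).Adj u a from ⟨h1, h2⟩) hq

lemma hom22 (a b c d : Bool × Fin n) : (minor K a b * minor K c d).IsHomogeneous 4 :=
  (minor_hom a b).mul (minor_hom c d)

lemma hom4 (a b c d : (Bool × Fin n) × Bool) :
    ((X a * X b * X c * X d : MvPolynomial ((Bool × Fin n) × Bool) K)).IsHomogeneous 4 :=
  (((isHomogeneous_X _ _).mul (isHomogeneous_X _ _)).mul (isHomogeneous_X _ _)).mul
    (isHomogeneous_X _ _)

lemma hom112 (a b : (Bool × Fin n) × Bool) (c d : Bool × Fin n) :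
    ((X a * X b * minor K c d : MvPolynomial ((Bool × Fin n) × Bool) K)).IsHomogeneous 4 :=
  ((isHomogeneous_X _ _).mul (isHomogeneous_X _ _)).mul (minor_hom _ _)

/-- Two vertices on the side `s`. -/
lemma emp_same {s : Bool} {p q q' : Fin n} (h1 : q ≠ p) (h2 : q' ≠ p) (hq : q ≠ q') (k l : Fin n) :
    X ((s, p), false) * X ((!s, q), false) * X ((!s, q'), false) * minor K (s, k) (s, l) ∈
      beIdeal K (crown n) := by
  by_cases c1 : k ≠ q ∧ q ≠ l
  · rw [show X ((s, p), false) * X ((!s, q), false) * X ((!s, q'), false) * minor K (s, k) (s, l) =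
      X ((s, p), false) * X ((!s, q'), false) * (X ((!s, q), false) * minor K (s, k) (s, l)) by ring]
    exact Ideal.mul_mem_left _ _ (path1' _ c1.1 c1.2)
  by_cases c2 : k ≠ q' ∧ q' ≠ l
  · rw [show X ((s, p), false) * X ((!s, q), false) * X ((!s, q'), false) * minor K (s, k) (s, l) =
      X ((s, p), false) * X ((!s, q), false) * (X ((!s, q'), false) * minor K (s, k) (s, l)) by ring]
    exact Ideal.mul_mem_left _ _ (path1' _ c2.1 c2.2)
  have hcase : (k = q ∧ l = q') ∨ (k = q' ∧ l = q) := by
    rw [not_and_or, not_not, not_not] at c1 c2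
    rcases c1 with c1 | c1 <;> rcases c2 with c2 | c2
    · exact absurd (c1.symm.trans c2) hq
    · exact Or.inl ⟨c1, c2.symm⟩
    · exact Or.inr ⟨c2, c1.symm⟩
    · exact absurd (c1.trans c2.symm) hq
  rcases hcase with ⟨rfl, rfl⟩ | ⟨rfl, rfl⟩
  · -- `(s,q) - (!s,q') - (s,p) - (!s,q) - (s,q')`
    have h3 : X ((!s, k), false) * minor K (s, p) (s, l) ∈ beIdeal K (crown n) :=
      path1' _ h1.symm hq
    have h4 := pstep false (u := (!s, l)) (a := (s, p)) (not_eq_self s) h2 h3
    have h5 := pstep false (u := (s, k)) (a := (!s, l)) (not_eq_self s).symm hq h4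
    convert h5 using 1
    ring
  · have h3 : X ((!s, k), false) * minor K (s, p) (s, l) ∈ beIdeal K (crown n) :=
      path1' _ h2.symm hq.symm
    have h4 := pstep false (u := (!s, l)) (a := (s, p)) (not_eq_self s) h1 h3
    have h5 := pstep false (u := (s, k)) (a := (!s, l)) (not_eq_self s).symm hq.symm h4
    convert h5 using 1
    ring

/-- Two vertices on different sides. -/
lemma emp_diff {s : Bool} {p p' q q' : Fin n} (h1 : q ≠ p) (h2 : q' ≠ p) (h3 : q ≠ p')
    (h4 : q' ≠ p') (hp : p ≠ p') (hq : q ≠ q') (k l : Fin n) :
    X ((s, p), false) * X ((s, p'), false) * X ((!s, q), false) * X ((!s, q'), false) *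
      minor K (s, k) (!s, l) ∈ beIdeal K (crown n) := by
  have key : ∀ x y : Fin n, x ≠ y → k ≠ y → x ≠ l →
      X ((!s, y), false) * X ((s, x), false) * minor K (s, k) (!s, l) ∈ beIdeal K (crown n) := by
    intro x y hxy hky hxl
    have h5 : X ((s, x), false) * minor K (!s, y) (!s, l) ∈ beIdeal K (crown n) :=
      path1 _ hxy.symm hxl
    exact pstep false (u := (s, k)) (a := (!s, y)) (not_eq_self s).symm hky h5
  obtain ⟨y, y', hy, hky, hyy⟩ : ∃ y y', ((y = q ∧ y' = q') ∨ (y = q' ∧ y' = q)) ∧ k ≠ y ∧ y ≠ y' := by
    by_cases h : k = q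
    · exact ⟨q', q, Or.inr ⟨rfl, rfl⟩, by rw [h]; exact hq, hq.symm⟩
    · exact ⟨q, q', Or.inl ⟨rfl, rfl⟩, h, hq⟩
  obtain ⟨x, x', hx, hlx, hxx⟩ : ∃ x x', ((x = p ∧ x' = p') ∨ (x = p' ∧ x' = p)) ∧ x ≠ l ∧ x ≠ x' := by
    by_cases h : p = l
    · exact ⟨p', p, Or.inr ⟨rfl, rfl⟩, by rw [← h]; exact hp.symm, hp.symm⟩
    · exact ⟨p, p', Or.inl ⟨rfl, rfl⟩, h, hp⟩
  have hxy : x ≠ y := by
    rcases hy with ⟨rfl, -⟩ | ⟨rfl, -⟩ <;> rcases hx with ⟨rfl, -⟩ | ⟨rfl, -⟩
    · exact h1.symm
    · exact h3.symm
    · exact h2.symm
    · exact h4.symm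
  have h6 := Ideal.mul_mem_left (beIdeal K (crown n)) (X ((s, x'), false) * X ((!s, y'), false))
    (key x y hxy hky hlx)
  rcases hy with ⟨rfl, rfl⟩ | ⟨rfl, rfl⟩ <;> rcases hx with ⟨rfl, rfl⟩ | ⟨rfl, rfl⟩ <;>
  · convert h6 using 1
    ring

/-- Existence of `f` of degree four. -/
lemma upper (K : Type*) [Field K] (hn : 4 ≤ n) (t : Idx n) (ht : t.ok) :
    ∃ f : MvPolynomial ((Bool × Fin n) × Bool) K, f.IsHomogeneous 4 ∧
      Submodule.colon (beIdeal K (crown n)) {f} = primeT K (crown n) t.set := by
  have hpr := PP_isPrime (K := K) t.set t.lab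
  have zero : Fin n := ⟨0, by omega⟩
  cases t with
  | empty =>
    obtain ⟨b, hb⟩ := ne_one hn zero
    obtain ⟨c, hc1, hc2⟩ := ne_two hn zero b
    obtain ⟨d, hd1, hd2, hd3⟩ := ne_three hn zero b c
    refine ⟨X ((false, zero), false) * X ((false, b), false) * X ((true, c), false) *
      X ((true, d), false), ?_, ?_⟩
    · exact hom4 _ _ _ _
    · refine colon_eq hn Idx.empty trivial _ ?_ (fun v hv => absurd hv (by simp [Idx.set])) ?_
      · have hX : ∀ v b, (X (v, b) : MvPolynomial ((Bool × Fin n) × Bool) K) ∉
            PP K (Idx.empty (n := n)).set (Idx.empty (n := n)).lab := fun v b =>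
          X_notMem_PP _ b (by simp [Idx.set])
        intro h
        rcases hpr.mem_or_mem h with h | h
        · rcases hpr.mem_or_mem h with h | h
          · rcases hpr.mem_or_mem h with h | h
            · exact hX _ _ h
            · exact hX _ _ h
          · exact hX _ _ h
        · exact hX _ _ h
      · rintro ⟨a, k⟩ ⟨a', l⟩ - - - -
        rw [mul_comm]
        cases a <;> cases a'
        · have h := Ideal.mul_mem_left (beIdeal K (crown n)) (X ((false, b), false))
            (emp_same (K := K) (s := false) (p := zero) (q := c) (q' := d) hc1 hd1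
              (fun h => hd3 h.symm) k l)
          simp only [Bool.not_false] at h
          convert h using 1
          ring
        · have h := emp_diff (K := K) (s := false) (p := zero) (p' := b) (q := c) (q' := d)
            hc1 hd1 hc2 hd2 hb.symm (fun h => hd3 h.symm) k l
          simp only [Bool.not_false] at h
          exact h
        · have h := emp_diff (K := K) (s := true) (p := c) (p' := d) (q := zero) (q' := b)
            hc1.symm (fun h => hc2 h.symm) hd1.symm (fun h => hd2 h.symm) (fun h => hd3 h.symm)
            hb.symm k l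
          simp only [Bool.not_true] at h
          convert h using 1
          ring
        · have h := Ideal.mul_mem_left (beIdeal K (crown n)) (X ((true, d), false))
            (emp_same (K := K) (s := true) (p := c) (q := zero) (q' := b) hc1.symm
              (fun h => hc2 h.symm) hb.symm k l)
          simp only [Bool.not_true] at h
          convert h using 1
          ring
  | side s =>
    obtain ⟨b, hb⟩ := ne_one hn zero
    obtain ⟨c, hc1, hc2⟩ := ne_two hn zero b
    obtain ⟨d, hd1, hd2, hd3⟩ := ne_three hn zero b c
    refine ⟨minor K (!s, zero) (!s, b) * minor K (!s, c) (!s, d), hom22 _ _ _ _, ?_⟩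
    have hns : ∀ m : Fin n, (!s, m) ∉ (Idx.side s).set := fun m h => not_eq_self s h
    refine colon_eq hn (Idx.side s) trivial _ ?_ ?_ ?_
    · intro h
      rcases hpr.mem_or_mem h with h | h
      · refine minor_notMem_PP _ (hns zero) (hns b) ?_ h
        intro h'
        have := Option.some_injective _ h'
        rw [Prod.mk.injEq] at this
        exact hb this.2.symm
      · refine minor_notMem_PP _ (hns c) (hns d) ?_ h
        intro h'
        have := Option.some_injective _ h'
        rw [Prod.mk.injEq] at this
        exact hd3 this.2.symm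
    · rintro ⟨s', k⟩ (rfl : s' = s) β
      by_cases h1 : zero ≠ k ∧ k ≠ b
      · rw [← mul_assoc]
        exact Ideal.mul_mem_right _ _ (path1 β h1.1 h1.2)
      · have h2 : c ≠ k ∧ k ≠ d := by
          rw [not_and_or, not_not, not_not] at h1
          rcases h1 with rfl | rfl
          · exact ⟨hc1, hd1.symm⟩
          · exact ⟨hc2, hd2.symm⟩
        rw [show X ((s', k), β) * (minor K (!s', zero) (!s', b) * minor K (!s', c) (!s', d)) =
          minor K (!s', zero) (!s', b) * (X ((s', k), β) * minor K (!s', c) (!s', d)) by ring]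
        exact Ideal.mul_mem_left _ _ (path1 β h2.1 h2.2)
    · intro u v _ _ huv hl
      exact absurd (Option.some_injective _ hl) huv
  | sideDel s i =>
    obtain ⟨k, hk⟩ := ne_one hn i
    obtain ⟨l, hl1, hl2⟩ := ne_two hn i k
    refine ⟨X ((s, i), false) * X ((!s, l), false) * minor K (!s, i) (!s, k),
      hom112 _ _ _ _, ?_⟩
    have hns : ∀ m, (!s, m) ∉ (Idx.sideDel s i).set := fun m h => not_eq_self s h.1
    refine colon_eq hn (Idx.sideDel s i) trivial _ ?_ ?_ ?_
    · intro h
      rcases hpr.mem_or_mem h with h | h
      · rcases hpr.mem_or_mem h with h | h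
        · exact X_notMem_PP _ _ (fun h => h.2 rfl) h
        · exact X_notMem_PP _ _ (hns l) h
      · refine minor_notMem_PP _ (hns i) (hns k) ?_ h
        simp [Idx.lab, hk]
    · rintro ⟨s', j⟩ ⟨(rfl : s' = s), (hj : j ≠ i)⟩ β
      by_cases hjk : j = k
      · subst hjk
        have h3 : X ((s', i), false) * minor K (!s', l) (!s', j) ∈ beIdeal K (crown n) :=
          path1 _ hl1 hj.symm
        have h4 := pstep false (u := (s', j)) (a := (!s', l)) (not_eq_self s').symm
          (fun h => hl2 h.symm) h3
        have h5 := pstep β (u := (!s', i)) (a := (s', j)) (not_eq_self s') (fun h => hj h.symm) h4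
        convert h5 using 1
        ring
      · rw [show X ((s', j), β) * (X ((s', i), false) * X ((!s', l), false) *
          minor K (!s', i) (!s', k)) = X ((s', i), false) * X ((!s', l), false) *
          (X ((s', j), β) * minor K (!s', i) (!s', k)) by ring]
        exact Ideal.mul_mem_left _ _ (path1 β (fun h => hj h.symm) hjk)
    · intro u v hu hv huv hlab
      rw [mul_comm]
      simp only [Idx.set, Set.mem_ofPred_eq, not_and, not_not] at hu hv
      simp only [Idx.lab] at hlab
      have key : ∀ w : Bool × Fin n, (w.1 = s → w.2 = i) → w ≠ (!s, i) →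
          w = (s, i) ∨ (w.1 = !s ∧ w.2 ≠ i) := by
        intro w hw hwn
        by_cases h : w.1 = s
        · exact Or.inl (Prod.ext h (hw h))
        · exact Or.inr ⟨eq_not h, fun h2 => hwn (Prod.ext (eq_not h) h2)⟩
      by_cases hu1 : u = (!s, i)
      · by_cases hv1 : v = (!s, i)
        · exact absurd (hu1.trans hv1.symm) huv
        · rw [if_pos hu1, if_neg hv1] at hlab; exact absurd hlab (by simp)
      · by_cases hv1 : v = (!s, i)
        · rw [if_neg hu1, if_pos hv1] at hlab; exact absurd hlab (by simp)
        · rcases key u hu hu1 with rfl | ⟨hu2, hu3⟩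
          · rcases key v hv hv1 with rfl | ⟨hv2, hv3⟩
            · exact absurd rfl huv
            · exact Ideal.mul_mem_left _ _ (minor_mem
                ⟨by rw [hv2]; exact (not_eq_self s).symm, fun h => hv3 h.symm⟩)
          · rcases key v hv hv1 with rfl | ⟨hv2, hv3⟩
            · exact Ideal.mul_mem_left _ _ (minor_mem ⟨by rw [hu2]; exact not_eq_self s, hu3⟩)
            · have h3 : X ((s, i), false) * minor K u v ∈ beIdeal K (crown n) :=
                path_one false ⟨by rw [hu2]; exact not_eq_self s, hu3⟩
                  ⟨by rw [hv2]; exact (not_eq_self s).symm, fun h => hv3 h.symm⟩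
              rw [show X ((s, i), false) * X ((!s, l), false) * minor K (!s, i) (!s, k) *
                minor K u v = X ((!s, l), false) * minor K (!s, i) (!s, k) *
                (X ((s, i), false) * minor K u v) by ring]
              exact Ideal.mul_mem_left _ _ h3
  | pair i j =>
    have hij : i ≠ j := ht
    have hji : ¬ j = i := fun h => hij h.symm
    refine ⟨minor K (false, i) (false, j) * minor K (true, i) (true, j), hom22 _ _ _ _, ?_⟩
    have hi : ∀ s, (s, i) ∉ (Idx.pair i j).set := fun s h => h.1 rfl
    have hj : ∀ s, (s, j) ∉ (Idx.pair i j).set := fun s h => h.2 rfl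
    refine colon_eq hn (Idx.pair i j) hij _ ?_ ?_ ?_
    · intro h
      rcases hpr.mem_or_mem h with h | h
      · refine minor_notMem_PP _ (hi _) (hj _) ?_ h
        simp [Idx.lab, hji]
      · refine minor_notMem_PP _ (hi _) (hj _) ?_ h
        simp [Idx.lab, hji]
    · rintro ⟨s, k⟩ ⟨(h1 : k ≠ i), (h2 : k ≠ j)⟩ β
      cases s
      · have h3 : X ((false, k), β) * minor K (true, i) (true, j) ∈ beIdeal K (crown n) :=
          path1 (s := false) β (fun h => h1 h.symm) h2
        rw [show X ((false, k), β) * (minor K (false, i) (false, j) * minor K (true, i) (true, j)) =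
          minor K (false, i) (false, j) * (X ((false, k), β) * minor K (true, i) (true, j)) by ring]
        exact Ideal.mul_mem_left _ _ h3
      · have h3 : X ((true, k), β) * minor K (false, i) (false, j) ∈ beIdeal K (crown n) :=
          path1 (s := true) β (fun h => h1 h.symm) h2
        rw [← mul_assoc]
        exact Ideal.mul_mem_right _ _ h3
    · intro u v hu hv huv hlab
      simp only [Idx.set, Set.mem_ofPred_eq, not_and, not_not] at hu hv
      refine Ideal.mul_mem_right _ _ (minor_mem (lab_pair hij ?_ ?_ hlab huv))
      · by_cases h1 : u.2 = i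
        · exact Or.inl h1
        · exact Or.inr (hu h1)
      · by_cases h1 : v.2 = i
        · exact Or.inl h1
        · exact Or.inr (hv h1)

/-! ### The lower bound -/

lemma sum_colDeg (m : ((Bool × Fin n) × Bool) →₀ ℕ) :
    ∑ v, colDeg m v = Finsupp.weight (1 : (Bool × Fin n) × Bool → ℕ) m := by
  rw [Finsupp.weight_apply, Finsupp.sum_fintype _ _ (by simp)]
  have h := Fintype.sum_prod_type (fun p : (Bool × Fin n) × Bool =>
    m p • (1 : (Bool × Fin n) × Bool → ℕ) p)
  rw [h]
  refine Finset.sum_congr rfl fun v _ => ?_
  rw [Fintype.sum_bool]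
  unfold colDeg
  simp [add_comm]

lemma cmp_zero_of_hom {f : MvPolynomial ((Bool × Fin n) × Bool) K} {d : ℕ}
    (hf : f.IsHomogeneous d) (δ : Bool × Fin n → ℕ) (hδ : ∑ v, δ v ≠ d) : cmp δ f = 0 := by
  ext m
  rw [coeff_zero, coeff_cmp]
  split_ifs with h
  · by_contra hne
    apply hδ
    rw [← h, sum_colDeg]
    exact hf hne
  · rfl

/-- There is no `f` of degree at most three. -/
theorem lower (hn : 4 ≤ n) (t : Idx n) (ht : t.ok) {f : MvPolynomial ((Bool × Fin n) × Bool) K}
    {d : ℕ} (hf : f.IsHomogeneous d)
    (hc : Submodule.colon (beIdeal K (crown n)) {f} = primeT K (crown n) t.set) : 4 ≤ d := by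
  by_contra hd
  push Not at hd
  have hpr := PP_isPrime (K := K) t.set t.lab
  rw [primeT_eq K hn t ht] at hc
  have h1 : ∀ t' : Idx n, t'.ok → t'.set ≠ t.set → f ∈ PP K t'.set t'.lab := by
    intro t' ht' hne
    have hpr' := PP_isPrime (K := K) t'.set t'.lab
    have h2 := sep (K := K) hn t t' ht ht' (fun h => hne h.symm)
    obtain ⟨g, hg1, hg2⟩ := SetLike.not_le_iff_exists.mp h2
    rw [← hc, Submodule.mem_colon_singleton, smul_eq_mul] at hg1
    rcases hpr'.mem_or_mem (be_le K t' ht' hg1) with h | h
    · exact absurd h hg2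
    · exact h
  have h2 : f ∈ beIdeal K (crown n) := by
    refine mem_of_cmp_mem fun δ => ?_
    by_cases hδ : ∑ v, δ v = d
    · exact low hn t h1 δ (by omega)
    · rw [cmp_zero_of_hom hf δ hδ]
      exact Ideal.zero_mem _
  apply hpr.ne_top
  rw [← hc, Ideal.eq_top_iff_one, Submodule.mem_colon_singleton, smul_eq_mul, one_mul]
  exact h2

/-! ### The cut sets -/

/-- The number of connected components of `G - T`. -/
noncomputable def compCount {V : Type*} (G : SimpleGraph V) (T : Set V) : ℕ :=
  Nat.card (G.induce Tᶜ).ConnectedComponent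

/-- `T` belongs to `C(G)`: `T` is empty or `c(T \ {v}) < c(T)` for every `v ∈ T`. -/
def IsCutSet {V : Type*} (G : SimpleGraph V) (T : Set V) : Prop :=
  T = ∅ ∨ ∀ v ∈ T, compCount G (T \ {v}) < compCount G T

/-- Each element of a cut set has neighbours in two different components. -/
lemma exists_neighbours {V : Type*} [Finite V] {G : SimpleGraph V} {T : Set V} {v : V}
    (h : compCount G (T \ {v}) < compCount G T) :
    ∃ (a b : V) (ha : a ∈ Tᶜ) (hb : b ∈ Tᶜ), G.Adj v a ∧ G.Adj v b ∧
      ¬ (G.induce Tᶜ).Reachable ⟨a, ha⟩ ⟨b, hb⟩ := by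
  classical
  by_contra hcon
  push Not at hcon
  apply absurd h
  rw [not_lt]
  unfold compCount
  -- a label for the vertices outside `T \ {v}`
  have hex : ∃ x : Option (G.induce Tᶜ).ConnectedComponent, ∀ (a : V) (ha : a ∈ Tᶜ), G.Adj v a →
      x = some ((G.induce Tᶜ).connectedComponentMk ⟨a, ha⟩) := by
    by_cases h1 : ∃ (a : V) (_ : a ∈ Tᶜ), G.Adj v a
    · obtain ⟨a, ha, hva⟩ := h1
      refine ⟨some ((G.induce Tᶜ).connectedComponentMk ⟨a, ha⟩), fun b hb hvb => ?_⟩
      rw [Option.some.injEq, SimpleGraph.ConnectedComponent.eq]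
      exact hcon a b ha hb hva hvb
    · push Not at h1
      exact ⟨none, fun a ha hva => absurd hva (h1 a ha)⟩
  obtain ⟨x, hx⟩ := hex
  let lam : ↥((T \ {v})ᶜ) → Option (G.induce Tᶜ).ConnectedComponent := fun w =>
    if h : w.1 ∈ Tᶜ then some ((G.induce Tᶜ).connectedComponentMk ⟨w.1, h⟩) else x
  have hadj : ∀ a b : ↥((T \ {v})ᶜ), (G.induce (T \ {v})ᶜ).Adj a b → lam a = lam b := by
    intro a b hab
    have hab' : G.Adj a.1 b.1 := hab
    have hmem : ∀ w : ↥((T \ {v})ᶜ), w.1 ∉ Tᶜ → w.1 = v := by
      intro w hw
      by_contra hne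
      exact w.2 ⟨Set.notMem_compl_iff.mp hw, hne⟩
    by_cases ha : a.1 ∈ Tᶜ
    · by_cases hb : b.1 ∈ Tᶜ
      · simp only [lam, dif_pos ha, dif_pos hb, Option.some.injEq]
        rw [SimpleGraph.ConnectedComponent.eq]
        exact SimpleGraph.Adj.reachable (by exact hab')
      · simp only [lam, dif_pos ha, dif_neg hb]
        exact (hx a.1 ha (by have h2 := hab'.symm; rwa [hmem b hb] at h2)).symm
    · by_cases hb : b.1 ∈ Tᶜ
      · simp only [lam, dif_neg ha, dif_pos hb]
        exact hx b.1 hb (by have h2 := hab'; rwa [hmem a ha] at h2)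
      · exact absurd ((hmem a ha).trans (hmem b hb).symm) hab'.ne
  have hreach : ∀ a b : ↥((T \ {v})ᶜ), (G.induce (T \ {v})ᶜ).Reachable a b → lam a = lam b := by
    rintro a b ⟨w⟩
    induction w with
    | nil => rfl
    | cons h _ ih => exact (hadj _ _ h).trans ih
  let F : (G.induce Tᶜ).ConnectedComponent → (G.induce (T \ {v})ᶜ).ConnectedComponent :=
    SimpleGraph.ConnectedComponent.map (SimpleGraph.induceHomOfLE G
      (show Tᶜ ≤ (T \ {v})ᶜ from fun w hw h => hw h.1)).toHom
  refine Nat.card_le_card_of_injective F ?_
  intro A B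
  induction A using SimpleGraph.ConnectedComponent.ind with | _ a
  induction B using SimpleGraph.ConnectedComponent.ind with | _ b
  intro hAB
  have h1 := hreach _ _ (SimpleGraph.ConnectedComponent.exact hAB)
  have ha : lam ⟨a.1, fun h => a.2 h.1⟩ = some ((G.induce Tᶜ).connectedComponentMk a) := by
    simp only [lam]
    rw [dif_pos a.2]
  have hb : lam ⟨b.1, fun h => b.2 h.1⟩ = some ((G.induce Tᶜ).connectedComponentMk b) := by
    simp only [lam]
    rw [dif_pos b.2]
  have h2 : lam ⟨a.1, fun h => a.2 h.1⟩ = lam ⟨b.1, fun h => b.2 h.1⟩ := h1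
  rw [ha, hb] at h2
  exact Option.some_injective _ h2

/-- The cut sets of the crown graph are the listed ones. -/
theorem cutSet_listed {T : Set (Bool × Fin n)} (hT : IsCutSet (crown n) T) :
    ∃ t : Idx n, t.ok ∧ T = t.set := by
  rcases hT with rfl | hT
  · exact ⟨Idx.empty, trivial, rfl⟩
  by_cases hne : T = ∅
  · exact ⟨Idx.empty, trivial, hne⟩
  obtain ⟨v, hv⟩ := Set.nonempty_iff_ne_empty.mpr hne
  have key : ∀ v ∈ T, ∃ (a b : Bool × Fin n) (ha : a ∈ Tᶜ) (hb : b ∈ Tᶜ), (crown n).Adj v a ∧
      (crown n).Adj v b ∧ ¬ ((crown n).induce Tᶜ).Reachable ⟨a, ha⟩ ⟨b, hb⟩ :=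
    fun v hv => exists_neighbours (hT v hv)
  obtain ⟨⟨sa, i⟩, ⟨sb, j⟩, ha, hb, hva, hvb, hnr⟩ := key v hv
  have hsab : sa = sb := bool_ne (fun h => hva.1 h.symm) (fun h => hvb.1 h.symm)
  subst hsab
  obtain ⟨s, hs⟩ : ∃ s, sa = !s := ⟨!sa, by simp⟩
  subst hs
  have hij : i ≠ j := by
    rintro rfl
    exact hnr (SimpleGraph.Reachable.refl _)
  have hl : ∀ l, l ≠ i → l ≠ j → (s, l) ∈ T := by
    intro l hli hlj
    by_contra hcon
    exact hnr ((reach_of_adj ha (v := (s, l)) hcon ⟨not_eq_self s, fun h => hli h.symm⟩).trans
      (reach_of_adj _ hb ⟨(not_eq_self s).symm, hlj⟩))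
  -- two neighbours outside `T` of the elements of `T` on the side `!s`
  have hother : ∀ m, (!s, m) ∈ T → ∃ x y : Fin n, x ≠ y ∧ (s, x) ∉ T ∧ (s, y) ∉ T := by
    intro m hm
    obtain ⟨⟨s1, x⟩, ⟨s2, y⟩, hx, hy, h1, h2, h3⟩ := key _ hm
    have e1 : s1 = s := by
      have := eq_not (fun h => h1.1 h.symm)
      simpa using this
    have e2 : s2 = s := by
      have := eq_not (fun h => h2.1 h.symm)
      simpa using this
    subst e1
    subst e2
    refine ⟨x, y, ?_, hx, hy⟩
    rintro rfl
    exact h3 (SimpleGraph.Reachable.refl _)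
  have hout : ∀ x, (s, x) ∉ T → x = i ∨ x = j := by
    intro x hx
    by_contra hcon
    push Not at hcon
    exact hx (hl x hcon.1 hcon.2)
  by_cases hi : (s, i) ∈ T
  · by_cases hj : (s, j) ∈ T
    · refine ⟨Idx.side s, trivial, ?_⟩
      have hall : ∀ x, (s, x) ∈ T := by
        intro x
        by_contra hx
        rcases hout x hx with rfl | rfl
        · exact hx hi
        · exact hx hj
      ext ⟨s', x⟩
      constructor
      · intro hx
        by_contra hs'
        have : s' = !s := eq_not hs'
        subst this
        obtain ⟨y, _, _, hy, _⟩ := hother x hx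
        exact hy (hall y)
      · rintro (rfl : s' = s)
        exact hall x
    · refine ⟨Idx.sideDel s j, trivial, ?_⟩
      ext ⟨s', x⟩
      constructor
      · intro hx
        refine ⟨?_, ?_⟩
        · by_contra hs'
          have : s' = !s := eq_not hs'
          subst this
          obtain ⟨y, z, hyz, hy, hz⟩ := hother x hx
          have hy' : y = j := by
            rcases hout y hy with rfl | rfl
            · exact absurd hi hy
            · rfl
          have hz' : z = j := by
            rcases hout z hz with rfl | rfl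
            · exact absurd hi hz
            · rfl
          exact hyz (hy'.trans hz'.symm)
        · by_contra hs'
          have hs1 : s' = s := by
            by_contra hs'
            have : s' = !s := eq_not hs'
            subst this
            obtain ⟨y, z, hyz, hy, hz⟩ := hother x hx
            have hy' : y = j := by
              rcases hout y hy with rfl | rfl
              · exact absurd hi hy
              · rfl
            have hz' : z = j := by
              rcases hout z hz with rfl | rfl
              · exact absurd hi hz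
              · rfl
            exact hyz (hy'.trans hz'.symm)
          have hxj : x = j := hs'
          rw [hs1, hxj] at hx
          exact hj hx
      · rintro ⟨(rfl : s' = s), (hx : x ≠ j)⟩
        by_contra hcon
        rcases hout x hcon with rfl | rfl
        · exact hcon hi
        · exact hx rfl
  · by_cases hj : (s, j) ∈ T
    · refine ⟨Idx.sideDel s i, trivial, ?_⟩
      have hside : ∀ s' x, (s', x) ∈ T → s' = s := by
        intro s' x hx
        by_contra hs'
        have : s' = !s := eq_not hs'
        subst this
        obtain ⟨y, z, hyz, hy, hz⟩ := hother x hx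
        have hy' : y = i := by
          rcases hout y hy with rfl | rfl
          · rfl
          · exact absurd hj hy
        have hz' : z = i := by
          rcases hout z hz with rfl | rfl
          · rfl
          · exact absurd hj hz
        exact hyz (hy'.trans hz'.symm)
      ext ⟨s', x⟩
      constructor
      · intro hx
        refine ⟨hside s' x hx, ?_⟩
        rintro (rfl : x = i)
        rw [hside s' x hx] at hx
        exact hi hx
      · rintro ⟨(rfl : s' = s), (hx : x ≠ i)⟩
        by_contra hcon
        rcases hout x hcon with rfl | rfl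
        · exact hx rfl
        · exact hcon hj
    · refine ⟨Idx.pair i j, hij, ?_⟩
      ext ⟨s', x⟩
      constructor
      · intro hx
        refine ⟨?_, ?_⟩
        · rintro (rfl : x = i)
          by_cases hs' : s' = s
          · subst hs'; exact hi hx
          · rw [eq_not hs'] at hx; exact ha hx
        · rintro (rfl : x = j)
          by_cases hs' : s' = s
          · subst hs'; exact hj hx
          · rw [eq_not hs'] at hx; exact hb hx
      · rintro ⟨(hxi : x ≠ i), (hxj : x ≠ j)⟩
        by_cases hs' : s' = s
        · subst hs'; exact hl x hxi hxj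
        · rw [eq_not hs']
          by_contra hcon
          apply hnr
          have h1 := reach_of_adj (T := T) ha hj ⟨not_eq_self s, hij⟩
          have h2 := reach_of_adj (T := T) hj (v := (!s, x)) hcon
            ⟨(not_eq_self s).symm, fun h => hxj h.symm⟩
          have h3 := reach_of_adj (T := T) (u := (!s, x)) hcon hi ⟨not_eq_self s, hxi⟩
          have h4 := reach_of_adj (T := T) hi hb ⟨(not_eq_self s).symm, hij⟩
          exact ((h1.trans h2).trans h3).trans h4

/-! ### The result -/

/-- For `n ≥ 4` all local v-numbers of the binomial edge ideal of the crown graph are four. -/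
theorem result (n : ℕ) (hn : 4 ≤ n) (K : Type*) [Field K] (T : Set (Bool × Fin n))
    (hT : IsCutSet (crown n) T) :
    IsLocalV (beIdeal K (crown n)) (primeT K (crown n) T) 4 := by
  obtain ⟨t, ht, rfl⟩ := cutSet_listed hT
  refine ⟨upper K hn t ht, ?_⟩
  rintro d ⟨f, hf, hc⟩
  exact lower hn t ht hf hc

end Pool.Agent.Results.MP_354fda_al.AllFour
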